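import Mathlib

/-!
# The compact-open topology on the group of PL homeomorphisms of a one-dimensional PL manifold

`M` is a Hausdorff piecewise linear manifold of dimension one without boundary. The restriction to
`PL(M)` of the compact-open topology is contained in every Hausdorff group topology on `PL(M)`.

Idea. For open `I`, `J` the set of all `g` with `g(I) ∩ J ≠ ∅` is open in every Hausdorff group
topology, as it is a union of sets `{g : [g f g⁻¹, h] ≠ 1}` with `f` supported in `I` and `h` in `J`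
(such bump homeomorphisms exist in `PL(M)`). If `g` maps a point on the left of `x`, a point on the
right of `x` and a point near `x` to points nearby, then `g` maps a small connected neighbourhood
`V` of `x` into the short arc between the images of the first two, because `g(V)` is connected and
does not contain the two end points of this arc.
-/

set_option autoImplicit false
set_option linter.style.haveILetI false

open Topology Set Filter
open scoped Manifold

namespace Pool.Agent.Results.MP_817937_gt.DimensionOne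

/-- `f : ℝ → ℝ` is piecewise linear at `x`: it is affine on `[x, x + ε]` and on `[x - ε, x]` for
some `ε > 0`. -/
def PLAt (f : ℝ → ℝ) (x : ℝ) : Prop :=
  ∃ a b : ℝ, ∀ᶠ y in 𝓝 x, (x ≤ y → f y = f x + a * (y - x)) ∧ (y ≤ x → f y = f x + b * (y - x))

theorem PLAt.continuousAt {f : ℝ → ℝ} {x : ℝ} (h : PLAt f x) : ContinuousAt f x := by
  obtain ⟨a, b, h⟩ := h
  have h1 : ∀ᶠ y in 𝓝 x, ‖f y - f x‖ ≤ (|a| + |b|) * |y - x| := by
    filter_upwards [h] with y hy
    rcases le_total x y with h | h
    · rw [hy.1 h, Real.norm_eq_abs]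
      have : f x + a * (y - x) - f x = a * (y - x) := by ring
      rw [this, abs_mul]
      nlinarith [abs_nonneg a, abs_nonneg b, abs_nonneg (y - x),
        mul_nonneg (abs_nonneg b) (abs_nonneg (y - x))]
    · rw [hy.2 h, Real.norm_eq_abs]
      have : f x + b * (y - x) - f x = b * (y - x) := by ring
      rw [this, abs_mul]
      nlinarith [abs_nonneg a, abs_nonneg b, abs_nonneg (y - x),
        mul_nonneg (abs_nonneg a) (abs_nonneg (y - x))]
  have h2 : Tendsto (fun y => (|a| + |b|) * |y - x|) (𝓝 x) (𝓝 0) := by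
    have : Continuous (fun y : ℝ => (|a| + |b|) * |y - x|) := by fun_prop
    have h3 := this.tendsto x
    simpa using h3
  exact tendsto_sub_nhds_zero_iff.1 (squeeze_zero_norm' h1 h2)

theorem PLAt.congr {f g : ℝ → ℝ} {x : ℝ} (h : PLAt f x) (hg : g =ᶠ[𝓝 x] f) : PLAt g x := by
  obtain ⟨a, b, h⟩ := h
  refine ⟨a, b, ?_⟩
  filter_upwards [h, hg] with y hy h1
  rw [h1, hg.self_of_nhds]
  exact hy

theorem PLAt.comp {f g : ℝ → ℝ} {x : ℝ} (hg : PLAt g (f x)) (hf : PLAt f x) :
    PLAt (g ∘ f) x := by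
  have hc := hf.continuousAt
  obtain ⟨a, b, hf⟩ := hf
  obtain ⟨a', b', hg⟩ := hg
  refine ⟨if 0 ≤ a then a' * a else b' * a, if 0 ≤ b then b' * b else a' * b, ?_⟩
  filter_upwards [hf, hc.eventually hg] with y h1 h2
  constructor
  · intro hy
    have h3 := h1.1 hy
    have hy' : 0 ≤ y - x := by linarith
    split_ifs with ha
    · have h4 : f x ≤ f y := by
        rw [h3]
        nlinarith [mul_nonneg ha hy']
      show g (f y) = g (f x) + _
      rw [h2.1 h4, h3]
      ring
    · have h4 : f y ≤ f x := by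
        rw [h3]
        nlinarith [mul_nonneg (le_of_lt (neg_pos.2 (not_le.1 ha))) hy']
      show g (f y) = g (f x) + _
      rw [h2.2 h4, h3]
      ring
  · intro hy
    have h3 := h1.2 hy
    have hy' : 0 ≤ x - y := by linarith
    split_ifs with hb
    · have h4 : f y ≤ f x := by
        rw [h3]
        nlinarith [mul_nonneg hb hy']
      show g (f y) = g (f x) + _
      rw [h2.2 h4, h3]
      ring
    · have h4 : f x ≤ f y := by
        rw [h3]
        nlinarith [mul_nonneg (le_of_lt (neg_pos.2 (not_le.1 hb))) hy']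
      show g (f y) = g (f x) + _
      rw [h2.1 h4, h3]
      ring

theorem PLAt.neg {f : ℝ → ℝ} {x : ℝ} (hf : PLAt f x) : PLAt (fun y => - f y) x := by
  obtain ⟨a, b, hf⟩ := hf
  refine ⟨-a, -b, ?_⟩
  filter_upwards [hf] with y h
  refine ⟨fun hy => ?_, fun hy => ?_⟩
  · rw [h.1 hy]; ring
  · rw [h.2 hy]; ring

theorem PLAt.max {f g : ℝ → ℝ} {x : ℝ} (hf : PLAt f x) (hg : PLAt g x) :
    PLAt (fun y => max (f y) (g y)) x := by
  rcases lt_trichotomy (f x) (g x) with h | h | h
  · refine hg.congr ?_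
    filter_upwards [hf.continuousAt.eventually_lt hg.continuousAt h] with y hy
    exact max_eq_right hy.le
  · obtain ⟨a, b, hf⟩ := hf
    obtain ⟨a', b', hg⟩ := hg
    refine ⟨Max.max a a', Min.min b b', ?_⟩
    filter_upwards [hf, hg] with y h1 h2
    constructor
    · intro hy
      have hy' : 0 ≤ y - x := by linarith
      rw [h1.1 hy, h2.1 hy, ← h, max_self, max_add_add_left, max_mul_of_nonneg _ _ hy']
    · intro hy
      have hy' : y - x ≤ 0 := by linarith
      rw [h1.2 hy, h2.2 hy, ← h, max_self, max_add_add_left]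
      congr 1
      rcases le_total b b' with hb | hb
      · rw [min_eq_left hb]
        exact max_eq_left (mul_le_mul_of_nonpos_right hb hy')
      · rw [min_eq_right hb]
        exact max_eq_right (mul_le_mul_of_nonpos_right hb hy')
  · refine hf.congr ?_
    filter_upwards [hg.continuousAt.eventually_lt hf.continuousAt h] with y hy
    exact max_eq_left hy.le

theorem PLAt.min {f g : ℝ → ℝ} {x : ℝ} (hf : PLAt f x) (hg : PLAt g x) :
    PLAt (fun y => min (f y) (g y)) x := by
  have h := (hf.neg.max hg.neg).neg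
  refine h.congr (Eventually.of_forall fun y => ?_)
  show Min.min (f y) (g y) = - Max.max (-f y) (-g y)
  rw [max_neg_neg, neg_neg]

theorem PLAt.affine (a b x : ℝ) : PLAt (fun y => a * y + b) x :=
  ⟨a, a, Eventually.of_forall fun y => ⟨fun _ => by ring, fun _ => by ring⟩⟩

/-- The pregroupoid of piecewise linear maps. -/
def plPregroupoid : Pregroupoid ℝ where
  property f u := ∀ x ∈ u, PLAt f x
  comp := fun hf hg _ _ _ x hx => (hg _ hx.2).comp (hf _ hx.1)
  id_mem := fun x _ => (PLAt.affine 1 0 x).congr (Eventually.of_forall fun y => by simp)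
  locality := fun _ h x hx => by
    obtain ⟨v, _, hxv, h2⟩ := h x hx
    exact h2 x ⟨hx, hxv⟩
  congr := fun hu h hf x hx => (hf x hx).congr (by
    filter_upwards [hu.mem_nhds hx] with y hy using h y hy)

/-- The groupoid of piecewise linear homeomorphisms between open subsets of `ℝ`. -/
def plGroupoid : StructureGroupoid ℝ := plPregroupoid.groupoid

theorem mem_pl {e : OpenPartialHomeomorph ℝ ℝ} :
    e ∈ plGroupoid ↔ (∀ x ∈ e.source, PLAt e x) ∧ ∀ x ∈ e.target, PLAt e.symm x := Iff.rfl

theorem bump_left {a b : ℝ} (x : ℝ) :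
    min (max x (min (2 * x - a) ((x + b) / 2)))
      (max ((max x (min (2 * x - a) ((x + b) / 2)) + a) / 2)
        (2 * max x (min (2 * x - a) ((x + b) / 2)) - b)) = x := by
  rcases le_total x a with h1 | h1
  · have e : max x (min (2 * x - a) ((x + b) / 2)) = x :=
      max_eq_left ((min_le_left _ _).trans (by linarith))
    rw [e]
    exact min_eq_left (le_trans (by linarith) (le_max_left _ _))
  rcases le_total b x with h2 | h2
  · have e : max x (min (2 * x - a) ((x + b) / 2)) = x :=
      max_eq_left ((min_le_right _ _).trans (by linarith))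
    rw [e]
    exact min_eq_left (le_trans (by linarith) (le_max_right _ _))
  rcases le_total (3 * x) (2 * a + b) with h3 | h3
  · have e : max x (min (2 * x - a) ((x + b) / 2)) = 2 * x - a := by
      rw [min_eq_left (by linarith), max_eq_right (by linarith)]
    rw [e, max_eq_left (by linarith), min_eq_right (by linarith)]
    ring
  · have e : max x (min (2 * x - a) ((x + b) / 2)) = (x + b) / 2 := by
      rw [min_eq_right (by linarith), max_eq_right (by linarith)]
    rw [e, max_eq_right (by linarith), min_eq_right (by linarith)]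
    ring

theorem bump_right {a b : ℝ} (y : ℝ) :
    max (min y (max ((y + a) / 2) (2 * y - b)))
      (min (2 * min y (max ((y + a) / 2) (2 * y - b)) - a)
        ((min y (max ((y + a) / 2) (2 * y - b)) + b) / 2)) = y := by
  rcases le_total y a with h1 | h1
  · have e : min y (max ((y + a) / 2) (2 * y - b)) = y :=
      min_eq_left (le_trans (by linarith) (le_max_left _ _))
    rw [e]
    exact max_eq_left ((min_le_left _ _).trans (by linarith))
  rcases le_total b y with h2 | h2
  · have e : min y (max ((y + a) / 2) (2 * y - b)) = y :=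
      min_eq_left (le_trans (by linarith) (le_max_right _ _))
    rw [e]
    exact max_eq_left ((min_le_right _ _).trans (by linarith))
  rcases le_total (3 * y) (a + 2 * b) with h3 | h3
  · have e : min y (max ((y + a) / 2) (2 * y - b)) = (y + a) / 2 := by
      rw [max_eq_left (by linarith), min_eq_right (by linarith)]
    rw [e, min_eq_left (by linarith), max_eq_right (by linarith)]
    ring
  · have e : min y (max ((y + a) / 2) (2 * y - b)) = 2 * y - b := by
      rw [max_eq_right (by linarith), min_eq_right (by linarith)]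
    rw [e, min_eq_right (by linarith), max_eq_right (by linarith)]
    ring

/-- The bump homeomorphism of `ℝ` with support `[a, b]`. -/
noncomputable def bump (a b : ℝ) : ℝ ≃ₜ ℝ where
  toFun x := max x (min (2 * x - a) ((x + b) / 2))
  invFun y := min y (max ((y + a) / 2) (2 * y - b))
  left_inv x := bump_left x
  right_inv y := bump_right y
  continuous_toFun := by fun_prop
  continuous_invFun := by fun_prop

theorem bump_apply (a b x : ℝ) : bump a b x = max x (min (2 * x - a) ((x + b) / 2)) := rfl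

theorem bump_symm_apply (a b x : ℝ) :
    (bump a b).symm x = min x (max ((x + a) / 2) (2 * x - b)) := rfl

theorem bump_pl (a b x : ℝ) : PLAt (bump a b) x :=
  ((PLAt.affine 1 0 x).max ((PLAt.affine 2 (-a) x).min (PLAt.affine (1 / 2) (b / 2) x))).congr
    (Eventually.of_forall fun y => by
      show _ = max (1 * y + 0) (min (2 * y + -a) (1 / 2 * y + b / 2))
      rw [bump_apply]
      congr 1
      · ring
      · congr 1
        ring)

theorem bump_symm_pl (a b x : ℝ) : PLAt (bump a b).symm x :=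
  ((PLAt.affine 1 0 x).min ((PLAt.affine (1 / 2) (a / 2) x).max (PLAt.affine 2 (-b) x))).congr
    (Eventually.of_forall fun y => by
      show _ = min (1 * y + 0) (max (1 / 2 * y + a / 2) (2 * y + -b))
      rw [bump_symm_apply]
      congr 1
      · ring
      · congr 1
        ring)

theorem bump_off {a b x : ℝ} (hx : x ∉ Icc a b) : bump a b x = x := by
  rw [bump_apply]
  rcases lt_or_ge x a with h | h
  · exact max_eq_left ((min_le_left _ _).trans (by linarith))
  · have h2 : b < x := by
      by_contra h3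
      exact hx ⟨h, not_lt.1 h3⟩
    exact max_eq_left ((min_le_right _ _).trans (by linarith))

theorem bump_ne {a b : ℝ} (hab : a < b) : bump a b ((a + b) / 2) ≠ (a + b) / 2 := by
  rw [bump_apply]
  apply ne_of_gt
  refine lt_of_lt_of_le ?_ (le_max_right _ _)
  rw [lt_min_iff]
  constructor <;> linarith

section Transport

/-- The group of piecewise linear homeomorphisms of a one-dimensional piecewise linear manifold. -/
def PL (M : Type) [TopologicalSpace M] [ChartedSpace ℝ M] [HasGroupoid M plGroupoid] :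
    Subgroup (M ≃ₜ M) where
  carrier := {f | ∀ c ∈ atlas ℝ M, ∀ c' ∈ atlas ℝ M,
    c.symm ≫ₕ f.toOpenPartialHomeomorph ≫ₕ c' ∈ plGroupoid}
  one_mem' := fun c hc c' hc' => (Structomorph.refl (G := plGroupoid) M).mem_groupoid c c' hc hc'
  mul_mem' := by
    intro f g hf hg c hc c' hc'
    exact (Structomorph.trans (G := plGroupoid)
      { g with mem_groupoid := fun c c' hc hc' => hg c hc c' hc' }
      { f with mem_groupoid := fun c c' hc hc' => hf c hc c' hc' }).mem_groupoid c c' hc hc'
  inv_mem' := by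
    intro f hf c hc c' hc'
    exact (Structomorph.symm (G := plGroupoid)
      { f with mem_groupoid := fun c c' hc hc' => hf c hc c' hc' }).mem_groupoid c c' hc hc'

variable {M : Type} [TopologicalSpace M]

section Hat

open Classical in
/-- Transport of a homeomorphism of `ℝ` supported in the target of a chart. -/
noncomputable def hatFun (c : OpenPartialHomeomorph M ℝ) (f : ℝ → ℝ) (y : M) : M :=
  if y ∈ c.source then c.symm (f (c y)) else y

variable {c : OpenPartialHomeomorph M ℝ} {f : ℝ ≃ₜ ℝ} {a b : ℝ}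

theorem off_symm (h : ∀ x ∉ Icc a b, f x = x) : ∀ x ∉ Icc a b, f.symm x = x := by
  intro x hx
  rw [Homeomorph.symm_apply_eq]
  exact (h x hx).symm

theorem maps (h : ∀ x ∉ Icc a b, f x = x) (hab : Icc a b ⊆ c.target) {x : ℝ}
    (hx : x ∈ c.target) : f x ∈ c.target := by
  by_cases h1 : f x ∈ Icc a b
  · exact hab h1
  · have h2 := off_symm h _ h1
    rw [Homeomorph.symm_apply_apply] at h2
    rw [← h2]
    exact hx

theorem hat_left (h : ∀ x ∉ Icc a b, f x = x) (hab : Icc a b ⊆ c.target) (y : M) :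
    hatFun c f.symm (hatFun c f y) = y := by
  unfold hatFun
  by_cases hy : y ∈ c.source
  · have h1 := maps h hab (c.map_source hy)
    rw [if_pos hy, if_pos (c.map_target h1), c.right_inv h1, Homeomorph.symm_apply_apply,
      c.left_inv hy]
  · rw [if_neg hy, if_neg hy]

theorem hat_eq_id (h : ∀ x ∉ Icc a b, f x = x) {y : M} (hy : y ∉ c.symm '' Icc a b) :
    hatFun c f y = y := by
  unfold hatFun
  by_cases hs : y ∈ c.source
  · rw [if_pos hs, h, c.left_inv hs]
    intro hcon
    exact hy ⟨_, hcon, c.left_inv hs⟩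
  · rw [if_neg hs]

theorem hat_continuous [T2Space M] (h : ∀ x ∉ Icc a b, f x = x) (hab : Icc a b ⊆ c.target) :
    Continuous (hatFun c f) := by
  rw [continuous_iff_continuousAt]
  intro y
  by_cases hy : y ∈ c.source
  · have h1 : hatFun c f =ᶠ[𝓝 y] fun z => c.symm (f (c z)) := by
      filter_upwards [c.open_source.mem_nhds hy] with z hz
      unfold hatFun
      rw [if_pos hz]
    refine ContinuousAt.congr ?_ h1.symm
    have h2 : ContinuousAt c y := c.continuousAt hy
    have h3 : ContinuousAt f (c y) := f.continuous.continuousAt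
    have h4 : ContinuousAt c.symm (f (c y)) :=
      c.symm.continuousAt (maps h hab (c.map_source hy))
    exact (ContinuousAt.comp (f := fun z => f (c z)) h4 (ContinuousAt.comp h3 h2))
  · have hK : IsClosed (c.symm '' Icc a b) :=
      (isCompact_Icc.image_of_continuousOn (c.symm.continuousOn.mono hab)).isClosed
    have hy2 : y ∉ c.symm '' Icc a b := by
      rintro ⟨x, hx, rfl⟩
      exact hy (c.map_target (hab hx))
    have h1 : hatFun c f =ᶠ[𝓝 y] id := by
      filter_upwards [hK.isOpen_compl.mem_nhds hy2] with z hz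
      exact hat_eq_id h hz
    exact continuousAt_id.congr h1.symm

/-- The transported homeomorphism. -/
noncomputable def hat [T2Space M] (h : ∀ x ∉ Icc a b, f x = x) (hab : Icc a b ⊆ c.target) :
    M ≃ₜ M where
  toFun := hatFun c f
  invFun := hatFun c f.symm
  left_inv := hat_left h hab
  right_inv y := by
    have := hat_left (f := f.symm) (off_symm h) hab y
    simpa using this
  continuous_toFun := hat_continuous h hab
  continuous_invFun := hat_continuous (off_symm h) hab

theorem hat_plAt [T2Space M] [ChartedSpace ℝ M] [HasGroupoid M plGroupoid]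
    (h : ∀ x ∉ Icc a b, f x = x) (hab : Icc a b ⊆ c.target) (hc : c ∈ atlas ℝ M)
    (hf : ∀ x, PLAt f x) {e e' : OpenPartialHomeomorph M ℝ} (he : e ∈ atlas ℝ M)
    (he' : e' ∈ atlas ℝ M) {t : ℝ} (ht : t ∈ e.target)
    (ht' : hatFun c f (e.symm t) ∈ e'.source) :
    PLAt (fun s => e' (hatFun c f (e.symm s))) t := by
  by_cases hy : e.symm t ∈ c.source
  · have hfy : hatFun c f (e.symm t) = c.symm (f (c (e.symm t))) := by
      unfold hatFun
      rw [if_pos hy]
    have h1 := (mem_pl.1 (HasGroupoid.compatible (G := plGroupoid) he hc)).1 t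
      (by simp only [OpenPartialHomeomorph.trans_source, OpenPartialHomeomorph.symm_source,
            mem_inter_iff, mem_preimage]; exact ⟨ht, hy⟩)
    have h2 := (mem_pl.1 (HasGroupoid.compatible (G := plGroupoid) hc he')).1
      (f (c (e.symm t)))
      (by
        simp only [OpenPartialHomeomorph.trans_source, OpenPartialHomeomorph.symm_source,
            mem_inter_iff, mem_preimage]
        refine ⟨maps h hab (c.map_source hy), ?_⟩
        rw [← hfy]
        exact ht')
    have h3 : PLAt ((c.symm ≫ₕ e') ∘ (f ∘ (e.symm ≫ₕ c))) t :=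
      PLAt.comp (by simpa using h2) (PLAt.comp (hf _) h1)
    refine h3.congr ?_
    have h4 : ∀ᶠ s in 𝓝 t, e.symm s ∈ c.source :=
      (e.symm.continuousAt ht).eventually (c.open_source.mem_nhds hy)
    filter_upwards [h4] with s hs
    simp [hatFun, hs]
  · have hK : IsClosed (c.symm '' Icc a b) :=
      (isCompact_Icc.image_of_continuousOn (c.symm.continuousOn.mono hab)).isClosed
    have hy2 : e.symm t ∉ c.symm '' Icc a b := by
      rintro ⟨x, hx, hx2⟩
      apply hy
      rw [← hx2]
      exact c.map_target (hab hx)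
    have h0 : hatFun c f (e.symm t) = e.symm t := hat_eq_id h hy2
    rw [h0] at ht'
    have h1 := (mem_pl.1 (HasGroupoid.compatible (G := plGroupoid) he he')).1 t
      (by simp only [OpenPartialHomeomorph.trans_source, OpenPartialHomeomorph.symm_source,
            mem_inter_iff, mem_preimage]; exact ⟨ht, ht'⟩)
    refine h1.congr ?_
    have h4 : ∀ᶠ s in 𝓝 t, e.symm s ∈ (c.symm '' Icc a b)ᶜ :=
      (e.symm.continuousAt ht).eventually (hK.isOpen_compl.mem_nhds hy2)
    filter_upwards [h4] with s hs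
    rw [hat_eq_id h hs]
    simp

theorem hat_mem [T2Space M] [ChartedSpace ℝ M] [HasGroupoid M plGroupoid]
    (h : ∀ x ∉ Icc a b, f x = x) (hab : Icc a b ⊆ c.target) (hc : c ∈ atlas ℝ M)
    (hf : ∀ x, PLAt f x) (hf' : ∀ x, PLAt f.symm x) : hat h hab ∈ PL M := by
  intro e he e' he'
  rw [mem_pl]
  constructor
  · intro t ht
    simp only [OpenPartialHomeomorph.trans_source, OpenPartialHomeomorph.symm_source,
      mem_inter_iff, mem_preimage] at ht
    obtain ⟨h1, -, h3⟩ := ht
    exact hat_plAt h hab hc hf he he' h1 h3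
  · intro t ht
    simp only [OpenPartialHomeomorph.trans_target, OpenPartialHomeomorph.symm_target,
      mem_inter_iff, mem_preimage] at ht
    obtain ⟨⟨h1, -⟩, h3⟩ := ht
    exact hat_plAt (f := f.symm) (off_symm h) hab hc hf' he' he h1 h3

end Hat

theorem exists_bump [T2Space M] [ChartedSpace ℝ M] [HasGroupoid M plGroupoid] {U : Set M}
    (hU : IsOpen U) (hne : U.Nonempty) :
    ∃ k : PL M, (∃ x, k.1 x ≠ x) ∧ ∀ x ∉ U, k.1 x = x := by
  obtain ⟨x0, hx0⟩ := hne
  have hcs := mem_chart_source ℝ x0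
  have hca := chart_mem_atlas ℝ x0
  set c := chartAt ℝ x0 with hcdef
  have hopen : IsOpen (c.target ∩ c.symm ⁻¹' U) :=
    c.symm.isOpen_inter_preimage hU
  have hmem : c x0 ∈ c.target ∩ c.symm ⁻¹' U := by
    refine ⟨c.map_source hcs, ?_⟩
    rw [mem_preimage, c.left_inv hcs]
    exact hx0
  obtain ⟨ε, hε, hball⟩ := Metric.isOpen_iff.1 hopen _ hmem
  have hIcc : Icc (c x0 - ε / 2) (c x0 + ε / 2) ⊆ c.target ∩ c.symm ⁻¹' U := by
    intro y hy
    apply hball
    rw [Metric.mem_ball, Real.dist_eq, abs_lt]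
    constructor <;> linarith [hy.1, hy.2]
  have hoff : ∀ x ∉ Icc (c x0 - ε / 2) (c x0 + ε / 2),
      bump (c x0 - ε / 2) (c x0 + ε / 2) x = x := fun x hx => bump_off hx
  have hab : Icc (c x0 - ε / 2) (c x0 + ε / 2) ⊆ c.target := fun y hy => (hIcc hy).1
  refine ⟨⟨hat hoff hab, hat_mem hoff hab hca (bump_pl _ _) (bump_symm_pl _ _)⟩, ⟨x0, ?_⟩, ?_⟩
  · intro hcon
    have h1 : hatFun c (bump (c x0 - ε / 2) (c x0 + ε / 2)) x0 = x0 := hcon
    unfold hatFun at h1
    rw [if_pos hcs] at h1
    have h2 := congrArg c h1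
    rw [c.right_inv (maps hoff hab (c.map_source hcs))] at h2
    have h3 := bump_ne (a := c x0 - ε / 2) (b := c x0 + ε / 2) (by linarith)
    apply h3
    have h4 : (c x0 - ε / 2 + (c x0 + ε / 2)) / 2 = c x0 := by ring
    rw [h4]
    exact h2
  · intro x hx
    refine hat_eq_id (f := bump (c x0 - ε / 2) (c x0 + ε / 2)) hoff ?_
    rintro ⟨y, hy, rfl⟩
    exact hx (hIcc hy).2

end Transport

section Main

variable {M : Type} [TopologicalSpace M]

/-- Every nonempty open subset of `M` contains the support of an element of `G` different from the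
identity. -/
def LocallyMoving (G : Subgroup (M ≃ₜ M)) : Prop :=
  ∀ U : Set M, IsOpen U → U.Nonempty → ∃ k ∈ G, (∃ x, k x ≠ x) ∧ ∀ x ∉ U, k x = x

/-- The restriction to `G` of the compact-open topology: the topology generated by the sets
`{f : f(K) ⊆ U}`, with `K` compact and `U` open. -/
@[instance_reducible]
def coTop (G : Subgroup (M ≃ₜ M)) : TopologicalSpace G :=
  TopologicalSpace.generateFrom
    {S | ∃ K U : Set M, IsCompact K ∧ IsOpen U ∧ S = {f : G | MapsTo f.1 K U}}

variable {G : Subgroup (M ≃ₜ M)}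

theorem commute_of {u h : G} {J : Set M} (hu : ∀ x ∈ J, u.1 x = x) (hh : ∀ x ∉ J, h.1 x = x) :
    u * h = h * u := by
  apply Subtype.ext
  apply Homeomorph.ext
  intro v
  show u.1 (h.1 v) = h.1 (u.1 v)
  by_cases hv : v ∈ J
  · have h1 : h.1 v ∈ J := by
      by_contra hcon
      have h2 := h.1.injective (hh _ hcon)
      exact hcon (h2.symm ▸ hv)
    rw [hu _ h1, hu _ hv]
  · have h1 : u.1 v ∉ J := by
      intro hcon
      have h2 := u.1.injective (hu _ hcon)
      exact hv (h2 ▸ hcon)
    rw [hh _ hv, hh _ h1]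

theorem isOpen_meet [T2Space M] (hG : LocallyMoving G) (τ : TopologicalSpace G) (hτ : @IsTopologicalGroup _ τ _)
    (h2 : @T2Space _ τ) {I J : Set M} (hI : IsOpen I) (hJ : IsOpen J) :
    @IsOpen _ τ {g : G | ∃ x ∈ I, g.1 x ∈ J} := by
  rw [isOpen_iff_mem_nhds]
  rintro g0 ⟨x0, hx0, hgx0⟩
  have hJ' : IsOpen (J ∩ g0.1 '' I) := hJ.inter (g0.1.isOpen_image.2 hI)
  obtain ⟨k', hkG, hk1, hk2⟩ := hG _ hJ' ⟨g0.1 x0, hgx0, x0, hx0, rfl⟩
  obtain ⟨k, ⟨z, hz⟩, hk⟩ : ∃ k : G, (∃ x, k.1 x ≠ x) ∧ ∀ x ∉ J ∩ g0.1 '' I, k.1 x = x :=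
    ⟨⟨k', hkG⟩, hk1, hk2⟩
  have hzJ : z ∈ J ∩ g0.1 '' I := by
    by_contra hcon
    exact hz (hk z hcon)
  obtain ⟨A, B, hA, hB, hzA, hzB, hAB⟩ := t2_separation hz
  have hW : IsOpen (J ∩ g0.1 '' I ∩ B ∩ k.1 ⁻¹' A) :=
    (hJ'.inter hB).inter (hA.preimage k.1.continuous)
  obtain ⟨h', hhG, hh1, hh2⟩ := hG _ hW ⟨z, ⟨hzJ, hzB⟩, hzA⟩
  obtain ⟨h, ⟨w, hw⟩, hh⟩ : ∃ h : G, (∃ x, h.1 x ≠ x) ∧
      ∀ x ∉ J ∩ g0.1 '' I ∩ B ∩ k.1 ⁻¹' A, h.1 x = x := ⟨⟨h', hhG⟩, hh1, hh2⟩
  have hwW : w ∈ J ∩ g0.1 '' I ∩ B ∩ k.1 ⁻¹' A := by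
    by_contra hcon
    exact hw (hh w hcon)
  have hkh : k * h ≠ h * k := by
    intro hcon
    have h3 : k.1 (h.1 (k.1.symm w)) = h.1 (k.1 (k.1.symm w)) :=
      congrArg (fun q : G => q.1 (k.1.symm w)) hcon
    rw [Homeomorph.apply_symm_apply] at h3
    have h4 : k.1.symm w ∉ J ∩ g0.1 '' I ∩ B ∩ k.1 ⁻¹' A := by
      intro h5
      have h6 : k.1 (k.1.symm w) ∈ A := h5.2
      rw [Homeomorph.apply_symm_apply] at h6
      exact disjoint_left.1 hAB h6 hwW.1.2
    rw [hh _ h4, Homeomorph.apply_symm_apply] at h3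
    exact hw h3.symm
  have hopen : @IsOpen _ τ {g : G | (g * (g0⁻¹ * k * g0) * g⁻¹) * h ≠
      h * (g * (g0⁻¹ * k * g0) * g⁻¹)} := by
    letI := τ
    haveI := hτ
    haveI := h2
    exact isOpen_ne_fun (by fun_prop) (by fun_prop)
  refine mem_of_superset (hopen.mem_nhds ?_) ?_
  · have h3 : g0 * (g0⁻¹ * k * g0) * g0⁻¹ = k := by group
    show (g0 * (g0⁻¹ * k * g0) * g0⁻¹) * h ≠ h * (g0 * (g0⁻¹ * k * g0) * g0⁻¹)
    rw [h3]
    exact hkh
  · intro g hg
    by_contra hcon
    apply hg
    refine commute_of (J := J) ?_ ?_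
    · intro x hx
      show g.1 (g0.1.symm (k.1 (g0.1 (g.1.symm x)))) = x
      have h3 : g0.1 (g.1.symm x) ∉ J ∩ g0.1 '' I := by
        rintro ⟨-, y, hy, hy2⟩
        have h4 := g0.1.injective hy2
        apply hcon
        refine ⟨y, hy, ?_⟩
        rw [h4, Homeomorph.apply_symm_apply]
        exact hx
      rw [hk _ h3, Homeomorph.symm_apply_apply, Homeomorph.apply_symm_apply]
    · intro x hx
      apply hh
      intro h3
      exact hx h3.1.1.1

theorem local_step [T2Space M] [ChartedSpace ℝ M] (hG : LocallyMoving G)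
    (τ : TopologicalSpace G) (hτ : @IsTopologicalGroup _ τ _)
    (h2 : @T2Space _ τ) {U : Set M} (hU : IsOpen U) {x : M} (hx : x ∈ U) :
    ∃ V ∈ 𝓝 x, {g : G | MapsTo g.1 V U} ∈ @nhds _ τ 1 := by
  have hcs := mem_chart_source ℝ x
  set c := chartAt ℝ x with hcdef
  have hopen : IsOpen (c.target ∩ c.symm ⁻¹' U) := c.symm.isOpen_inter_preimage hU
  have hmem : c x ∈ c.target ∩ c.symm ⁻¹' U := by
    refine ⟨c.map_source hcs, ?_⟩
    rw [mem_preimage, c.left_inv hcs]
    exact hx
  obtain ⟨ε, hε, hball⟩ := Metric.isOpen_iff.1 hopen _ hmem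
  have hIoo : Ioo (c x - ε) (c x + ε) ⊆ c.target ∩ c.symm ⁻¹' U := by
    rw [← Real.ball_eq_Ioo]
    exact hball
  -- the marker sets
  have himg : ∀ p q : ℝ, c x - ε ≤ p → q ≤ c x + ε → IsOpen (c.symm '' Ioo p q) := by
    intro p q hp hq
    apply c.symm.isOpen_image_of_subset_source isOpen_Ioo
    intro y hy
    exact (hIoo ⟨by linarith [hy.1], by linarith [hy.2]⟩).1
  have o3 := himg (c x - ε) (c x - ε / 2) le_rfl (by linarith)
  have o4 := himg (c x + ε / 2) (c x + ε) (by linarith) le_rfl
  have oV := himg (c x - ε / 2) (c x + ε / 2) (by linarith) (by linarith)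
  have m1 : ∀ {I : Set M}, IsOpen I → I.Nonempty →
      {g : G | ∃ x ∈ I, g.1 x ∈ I} ∈ @nhds _ τ 1 := by
    intro I hI ⟨y, hy⟩
    exact (isOpen_meet hG τ hτ h2 hI hI).mem_nhds ⟨y, hy, hy⟩
  refine ⟨c.symm '' Ioo (c x - ε / 2) (c x + ε / 2),
    oV.mem_nhds ⟨c x, ⟨by linarith, by linarith⟩, c.left_inv hcs⟩, ?_⟩
  filter_upwards [m1 o3 ((nonempty_Ioo.2 (by linarith)).image _),
    m1 o4 ((nonempty_Ioo.2 (by linarith)).image _),
    m1 oV ((nonempty_Ioo.2 (by linarith)).image _)] with u h3 h4 h1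
  obtain ⟨_, ⟨p3, hp3, rfl⟩, q3, hq3, e3⟩ := h3
  obtain ⟨_, ⟨p4, hp4, rfl⟩, q4, hq4, e4⟩ := h4
  obtain ⟨_, ⟨p1, hp1, rfl⟩, q1, hq1, e1⟩ := h1
  have hsub : Icc q3 q4 ⊆ Ioo (c x - ε) (c x + ε) := fun y hy =>
    ⟨lt_of_lt_of_le hq3.1 hy.1, lt_of_le_of_lt hy.2 hq4.2⟩
  have hcl : IsClosed (c.symm '' Icc q3 q4) :=
    (isCompact_Icc.image_of_continuousOn
      (c.symm.continuousOn.mono (hsub.trans fun y hy => (hIoo hy).1))).isClosed
  have hJo : IsOpen (c.symm '' Ioo q3 q4) := himg q3 q4 hq3.1.le hq4.2.le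
  have hconn : IsPreconnected (u.1 '' (c.symm '' Ioo (c x - ε / 2) (c x + ε / 2))) := by
    refine IsPreconnected.image ?_ _ u.1.continuous.continuousOn
    refine isPreconnected_Ioo.image _ (c.symm.continuousOn.mono ?_)
    intro y hy
    exact (hIoo ⟨by linarith [hy.1], by linarith [hy.2]⟩).1
  have hinj : ∀ {s t : ℝ}, s ∈ Ioo (c x - ε) (c x + ε) → t ∈ Ioo (c x - ε) (c x + ε) →
      c.symm s = c.symm t → s = t := by
    intro s t hs ht hst
    have h5 := congrArg c hst
    rwa [c.right_inv (hIoo hs).1, c.right_inv (hIoo ht).1] at h5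
  have hkey : u.1 '' (c.symm '' Ioo (c x - ε / 2) (c x + ε / 2)) ⊆ c.symm '' Ioo q3 q4 := by
    refine hconn.subset_of_closure_inter_subset hJo ?_ ?_
    · refine ⟨u.1 (c.symm p1), ⟨_, ⟨p1, hp1, rfl⟩, rfl⟩, ?_⟩
      rw [← e1]
      refine ⟨q1, ⟨?_, ?_⟩, rfl⟩
      · linarith [hq3.2, hq1.1]
      · linarith [hq4.1, hq1.2]
    · rintro y ⟨hy1, _, ⟨s, hs, rfl⟩, rfl⟩
      have h5 : u.1 (c.symm s) ∈ c.symm '' Icc q3 q4 :=
        closure_minimal (image_mono Ioo_subset_Icc_self) hcl hy1
      obtain ⟨r, hr, hr2⟩ := h5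
      have hs' : s ∈ Ioo (c x - ε) (c x + ε) := ⟨by linarith [hs.1], by linarith [hs.2]⟩
      rcases eq_or_lt_of_le hr.1 with h6 | h6
      · exfalso
        have h7 : u.1 (c.symm s) = u.1 (c.symm p3) := by
          rw [← hr2, ← h6, e3]
        have h8 := hinj hs' ⟨hp3.1, by linarith [hp3.2]⟩ (u.1.injective h7)
        linarith [hs.1, hp3.2]
      rcases eq_or_lt_of_le hr.2 with h6' | h6'
      · exfalso
        have h7 : u.1 (c.symm s) = u.1 (c.symm p4) := by
          rw [← hr2, h6', e4]
        have h8 := hinj hs' ⟨by linarith [hp4.1], hp4.2⟩ (u.1.injective h7)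
        linarith [hs.2, hp4.1]
      exact ⟨r, ⟨h6, h6'⟩, hr2⟩
  intro y hy
  obtain ⟨r, hr, hr2⟩ := hkey ⟨y, hy, rfl⟩
  show u.1 y ∈ U
  rw [← hr2]
  exact (hIoo (hsub (Ioo_subset_Icc_self hr))).2

theorem nhds_one [T2Space M] [ChartedSpace ℝ M] (hG : LocallyMoving G)
    (τ : TopologicalSpace G) (hτ : @IsTopologicalGroup _ τ _)
    (h2 : @T2Space _ τ) {K U : Set M} (hK : IsCompact K) (hU : IsOpen U) (hKU : K ⊆ U) :
    {g : G | MapsTo g.1 K U} ∈ @nhds _ τ 1 := by
  classical
  choose! V hV hN using fun x (hx : x ∈ U) => local_step hG τ hτ h2 hU hx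
  obtain ⟨t, ht, hcov⟩ := hK.elim_nhds_subcover V fun x hx => hV x (hKU hx)
  have h3 : (⋂ x ∈ t, {g : G | MapsTo g.1 (V x) U}) ∈ @nhds _ τ 1 :=
    (biInter_finset_mem t).2 fun x hx => hN x (hKU (ht x hx))
  refine mem_of_superset h3 ?_
  intro g hg y hy
  obtain ⟨x, hx, hyx⟩ := mem_iUnion₂.1 (hcov hy)
  exact (mem_iInter₂.1 hg x hx) hyx

theorem smallest [T2Space M] [ChartedSpace ℝ M] (hG : LocallyMoving G)
    (τ : TopologicalSpace G) (hτ : @IsTopologicalGroup _ τ _)
    (h2 : @T2Space _ τ) : τ ≤ coTop G := by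
  refine le_generateFrom ?_
  rintro _ ⟨K, U, hK, hU, rfl⟩
  rw [isOpen_iff_mem_nhds]
  intro g0 hg0
  have h3 : {g : G | MapsTo g.1 (g0.1 '' K) U} ∈ @nhds _ τ 1 :=
    nhds_one hG τ hτ h2 (hK.image g0.1.continuous) hU (by
      rintro _ ⟨y, hy, rfl⟩
      exact hg0 hy)
  have h4 : @Tendsto _ _ (fun g : G => g * g0⁻¹) (@nhds _ τ g0) (@nhds _ τ 1) := by
    letI := τ
    haveI := hτ
    have h5 : Continuous fun g : G => g * g0⁻¹ := by fun_prop
    have h6 := h5.tendsto g0
    rwa [mul_inv_cancel] at h6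
  filter_upwards [h4 h3] with g hg y hy
  have h7 : (g * g0⁻¹).1 (g0.1 y) ∈ U := hg ⟨y, hy, rfl⟩
  have h8 : (g * g0⁻¹).1 (g0.1 y) = g.1 y := by
    show g.1 (g0.1.symm (g0.1 y)) = g.1 y
    rw [Homeomorph.symm_apply_apply]
  rwa [h8] at h7

theorem locallyMoving_pl [T2Space M] [ChartedSpace ℝ M] [HasGroupoid M plGroupoid] :
    LocallyMoving (PL M) := by
  intro U hU hne
  obtain ⟨k, h1, h2⟩ := exists_bump hU hne
  exact ⟨k.1, k.2, h1, h2⟩

/-- Let `M` be a Hausdorff piecewise linear manifold of dimension one without boundary (modelled on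
`ℝ`, with piecewise linear transition maps). Every Hausdorff group topology on the group `PL M` of
piecewise linear homeomorphisms of `M` contains the restriction of the compact-open topology. In
particular no Hausdorff group topology on `PL M` is strictly coarser than the restriction of the
compact-open topology. More generally, this holds for every Hausdorff topological manifold `M` of
dimension one and every group `G` of homeomorphisms of `M` such that every nonempty open subset of
`M` contains the support of a nontrivial element of `G`. -/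
theorem result :
    (∀ (M : Type) [TopologicalSpace M] [T2Space M] [ChartedSpace ℝ M] [HasGroupoid M plGroupoid],
      (∀ τ : TopologicalSpace (PL M), @IsTopologicalGroup (PL M) τ _ → @T2Space (PL M) τ →
        τ ≤ coTop (PL M)) ∧
      (∀ τ : TopologicalSpace (PL M), @IsTopologicalGroup (PL M) τ _ → @T2Space (PL M) τ →
        coTop (PL M) ≤ τ → τ = coTop (PL M))) ∧
    (∀ (M : Type) [TopologicalSpace M] [T2Space M] [ChartedSpace ℝ M] (G : Subgroup (M ≃ₜ M)),
      LocallyMoving G →
      ∀ τ : TopologicalSpace G, @IsTopologicalGroup G τ _ → @T2Space G τ → τ ≤ coTop G) := by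
  refine ⟨?_, ?_⟩
  · intro M _ _ _ _
    exact ⟨fun τ h1 h2 => smallest locallyMoving_pl τ h1 h2,
      fun τ h1 h2 h3 => le_antisymm (smallest locallyMoving_pl τ h1 h2) h3⟩
  · intro M _ _ _ G hG τ h1 h2
    exact smallest hG τ h1 h2

end Main

end Pool.Agent.Results.MP_817937_gt.DimensionOne
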